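import Pool.Agent.HWY.St

/-!
HWY, module Two: a criterion for `I ⊗ I*` torsionfree for a two-generated ideal `I` of a domain.
-/

set_option autoImplicit false

namespace Pool.Agent.HWY

open TensorProduct

namespace Twox

variable {R : Type} [CommRing R]

/-- Values of a functional on an ideal. -/
theorem val {a : R} {I : Ideal R} (ha : a ∈ I) (c : Module.Dual R I) (i : I) :
    a * c i = (i : R) * c ⟨a, ha⟩ := by
  have h1 : a • i = (i : R) • (⟨a, ha⟩ : I) := by
    apply Subtype.ext
    simp only [Submodule.coe_smul, smul_eq_mul]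
    exact mul_comm _ _
  have h2 := congrArg c h1
  rwa [map_smul, map_smul, smul_eq_mul, smul_eq_mul] at h2

/-- A functional on an ideal is determined by one value. -/
theorem ext [IsDomain R] {a : R} (ha0 : a ≠ 0) {I : Ideal R} (ha : a ∈ I)
    {c c' : Module.Dual R I} (h : c ⟨a, ha⟩ = c' ⟨a, ha⟩) : c = c' := by
  apply LinearMap.ext
  intro i
  apply mul_left_cancel₀ ha0
  rw [val ha c i, val ha c' i, h]

/-- A functional with a given value. -/
theorem exists_functional [IsDomain R] {a : R} (ha0 : a ≠ 0) {I : Ideal R} (ha : a ∈ I)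
    {x : R} (hx : ∀ i : I, a ∣ x * i) : ∃ c : Module.Dual R I, c ⟨a, ha⟩ = x := by
  choose q hq using hx
  refine ⟨{ toFun := q, map_add' := ?_, map_smul' := ?_ }, ?_⟩
  · intro i j
    apply mul_left_cancel₀ ha0
    rw [mul_add, ← hq, ← hq, ← hq, Submodule.coe_add]
    ring
  · intro r i
    apply mul_left_cancel₀ ha0
    rw [← hq, RingHom.id_apply, smul_eq_mul, Submodule.coe_smul, smul_eq_mul]
    linear_combination r * hq i
  · show q ⟨a, ha⟩ = x
    apply mul_left_cancel₀ ha0
    rw [← hq]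
    ring

/-- The criterion, for an ideal `I` whose elements are the combinations of `a` and `b`. -/
theorem core [IsDomain R] {a b : R} (ha0 : a ≠ 0) {I : Ideal R} (ha : a ∈ I) (hb : b ∈ I)
    (hspan : ∀ i : I, ∃ r s : R, r * a + s * b = i)
    (hyp : ∀ v : R, a ∣ v * b → a ^ 2 ∣ v * b ^ 2 → ∃ (n : ℕ) (x y : Fin n → R),
      (∀ i, a ∣ x i * b) ∧ (∀ i, a ∣ y i * b) ∧ v = ∑ i, x i * y i)
    (s : R) (hs : s ≠ 0) (t : TensorProduct R I (Module.Dual R I)) (hst : s • t = 0) :
    t = 0 := by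
  -- normal form
  have hnf : ∀ t : TensorProduct R I (Module.Dual R I), ∃ f g : Module.Dual R I,
      t = (⟨a, ha⟩ : I) ⊗ₜ[R] f + (⟨b, hb⟩ : I) ⊗ₜ[R] g := by
    intro t
    induction t using TensorProduct.induction_on with
    | zero => exact ⟨0, 0, by simp⟩
    | tmul i c =>
      obtain ⟨r, s', hrs⟩ := hspan i
      refine ⟨r • c, s' • c, ?_⟩
      have h1 : i = r • (⟨a, ha⟩ : I) + s' • (⟨b, hb⟩ : I) := by
        apply Subtype.ext
        simp only [Submodule.coe_add, Submodule.coe_smul, smul_eq_mul]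
        exact hrs.symm
      rw [← TensorProduct.smul_tmul, ← TensorProduct.smul_tmul, ← TensorProduct.add_tmul, ← h1]
    | add t1 t2 h1 h2 =>
      obtain ⟨f1, g1, h1⟩ := h1
      obtain ⟨f2, g2, h2⟩ := h2
      refine ⟨f1 + f2, g1 + g2, ?_⟩
      rw [h1, h2, TensorProduct.tmul_add, TensorProduct.tmul_add]
      abel
  obtain ⟨f, g, ht⟩ := hnf t
  -- evaluation
  have hev : f ⟨a, ha⟩ + g ⟨b, hb⟩ = 0 := by
    have h1 := congrArg (contractRight R I) hst
    rw [map_smul, map_zero, ht, map_add, contractRight_apply, contractRight_apply,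
      smul_eq_mul] at h1
    exact (mul_eq_zero.1 h1).resolve_left hs
  have hg : a * g ⟨b, hb⟩ = b * g ⟨a, ha⟩ := val ha g ⟨b, hb⟩
  have hf : a * f ⟨b, hb⟩ = b * f ⟨a, ha⟩ := val ha f ⟨b, hb⟩
  obtain ⟨n, x, y, hx, hy, hv⟩ := hyp (g ⟨a, ha⟩) ⟨g ⟨b, hb⟩, by rw [hg, mul_comm]⟩
    ⟨- f ⟨b, hb⟩, by linear_combination a * hf - b * hg + a * b * hev⟩
  choose z hz using hx
  have hfun : ∀ i, ∃ c : Module.Dual R I, c ⟨a, ha⟩ = y i := by
    intro i
    apply exists_functional ha0 ha
    intro j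
    obtain ⟨r, s', hrs⟩ := hspan j
    rw [← hrs, mul_add]
    apply dvd_add
    · exact ⟨y i * r, by ring⟩
    · obtain ⟨q, hq⟩ := hy i
      exact ⟨s' * q, by linear_combination s' * hq⟩
  choose Y hY using hfun
  have hgs : g = ∑ i, x i • Y i := by
    apply ext ha0 ha
    rw [LinearMap.sum_apply, hv]
    apply Finset.sum_congr rfl
    intro i _
    rw [LinearMap.smul_apply, smul_eq_mul, hY]
  have hfs : ∑ i, z i • Y i = - f := by
    apply ext ha0 ha
    rw [LinearMap.sum_apply, LinearMap.neg_apply]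
    have h1 : - f ⟨a, ha⟩ = g ⟨b, hb⟩ := by linear_combination - hev
    rw [h1]
    apply mul_left_cancel₀ ha0
    rw [hg, hv, Finset.mul_sum, Finset.mul_sum]
    apply Finset.sum_congr rfl
    intro i _
    rw [LinearMap.smul_apply, smul_eq_mul, hY]
    linear_combination - (y i) * hz i
  have hibg : (⟨b, hb⟩ : I) ⊗ₜ[R] g = (⟨a, ha⟩ : I) ⊗ₜ[R] (- f) := by
    rw [← hfs]
    nth_rw 1 [hgs]
    rw [TensorProduct.tmul_sum, TensorProduct.tmul_sum]
    apply Finset.sum_congr rfl
    intro i _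
    rw [← TensorProduct.smul_tmul, ← TensorProduct.smul_tmul]
    congr 1
    apply Subtype.ext
    simp only [Submodule.coe_smul, smul_eq_mul]
    rw [hz i, mul_comm]
  rw [ht, hibg, ← TensorProduct.tmul_add, add_neg_cancel, TensorProduct.tmul_zero]

end Twox

open Twox in
theorem thm_Two : St_Two := by
  intro R _ _ a b ha0 hyp s t hst
  by_cases hs : s = 0
  · exact Or.inl hs
  right
  exact core ha0 (Ideal.subset_span (by simp)) (Ideal.subset_span (by simp))
    (fun i => Ideal.mem_span_pair.1 i.2) hyp s hs t hst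

end Pool.Agent.HWY
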