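import Pool.Agent.HWY.Defs
import Pool.Agent.HWC.Defs

/-!
helper11. Statements of the modules of HWY (two-generated ideals failing (HWC), any
characteristic). Every statement carries its proof. Do not change this file.
-/

set_option autoImplicit false

namespace Pool.Agent.HWY

open PowerSeries

/-- UNIT. Adapt `Pool/Agent/HWX/Unit.lean` (same proof, `Fx a` is now `a ∈ D.F`, `A a = 0` is now
`a ∈ D.V`, `Tr` is `D.T`, `Tr_mul_fx` is `D.T_mul`). -/
def St_Unit : Prop := ∀ {L : Type} [Field L] (D : Dat L) (x : D.R),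
  IsUnit x ↔ coeff 0 (x : PowerSeries L) ≠ 0

/-- DIVIDE. Adapt `Pool/Agent/HWX/Divide.lean`. -/
def St_Divide : Prop := ∀ {L : Type} [Field L] (D : Dat L) (x s : D.R),
  coeff 0 (x : PowerSeries L) = 0 → s ≠ 0 → ∃ N : ℕ, s ∣ x ^ N

/-- NOETHER. Adapt `Pool/Agent/HWX/Noether.lean`. The only change: the coefficient `x_1` of an
element of the maximal ideal is in `D.V`, so it is `∑ j, u j * D.ga j` with `u j ∈ D.F`
(`D.ga_span`, `D.ga_mem`), and the generators of degree one are `D.ga j * X`, `j : Fin D.m`;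
`a = ∑ j, D.al j * D.T (D.be j * a)` is `D.dual a`, `∃ e, D.T e = 1` is `D.T_one`. -/
def St_Noether : Prop := St_Unit → St_Divide →
  ∀ {L : Type} [Field L] (D : Dat L), IsNoetherianRing D.R

/-- GORENSTEIN. Adapt `Pool/Agent/HWX/Gor.lean`; the facts of `St_Perp` are now `D.perp_top`,
`D.perp` (`a ∈ D.V` if `D.T (a * b) = 0` for all `b ∈ D.V`), `D.perp_ker`, `D.T_one`. -/
def St_Gor : Prop := ∀ {L : Type} [Field L] (D : Dat L), InfIrred (Ideal.span {D.x3})

/-- PACKAGE. Adapt `Pool/Agent/HWX/Pack.lean`. -/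
def St_Pack : Prop := St_Unit → St_Divide → ∀ {L : Type} [Field L] (D : Dat L),
  InfIrred (Ideal.span {D.x3}) →
  ∃ _ : IsLocalRing D.R,
    (∀ x : D.R, x ∈ IsLocalRing.maximalIdeal D.R ↔ coeff 0 (x : PowerSeries L) = 0) ∧
    HWC.GorOne D.R ∧ HWC.Pkg D.R

/-- TWO. Two-generated ideals `I = (a, b)` of a domain, `w = b / a`: if every `v` in `R : I^2` (that
is `v, w v, w ^ 2 v ∈ R`) is a sum of products `x y` with `x, y ∈ R : I` (that is
`x, w x, y, w y ∈ R`), then `I ⊗ I*` is torsionfree.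

Proof. Put `ia = ⟨a, _⟩`, `ib = ⟨b, _⟩` in `I`. For `c : I*` we have `b * c ia = c (b • ia) =
c (a • ib) = a * c ib`, and `c` is determined by `c ia` (`a * c i = i * c ia`, `a` cancels).
If `a ∣ x * b` there is a functional `[x] : I*` with `[x] ia = x`: `a ∣ x * i` for all `i ∈ I`, take
the quotient (`Classical.choose`, linear because `a` cancels). By induction every `t` in the tensor
product is `ia ⊗ₜ f + ib ⊗ₜ g`. Let `s • t = 0`, `s ≠ 0`. Apply the evaluation
`I ⊗ I* → R`, `i ⊗ c ↦ c i` (`TensorProduct.lift` or `contractRight`-like): `f ia + g ib = 0`. Put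
`v = g ia`, `u = f ia = - g ib`. Then `a * g ib = b * v`, so `a ∣ v * b`, and
`a ^ 2 * f ib = a * b * u = - a * b * g ib = - b ^ 2 * v`, so `a ^ 2 ∣ v * b ^ 2`. By hypothesis
`v = ∑ x_i * y_i`, `x_i * b = a * z_i`, `a ∣ y_i * b`. Then `g = ∑ x_i • [y_i]` (same value at
`ia`), `x_i • ib = z_i • ia`, so `ib ⊗ g = ∑ (x_i • ib) ⊗ [y_i] = ∑ (z_i • ia) ⊗ [y_i] =
ia ⊗ (∑ z_i • [y_i])`, and `∑ z_i • [y_i] = - f` because
`a * ∑ z_i * y_i = b * v = a * g ib = - a * u`. So `t = 0`. -/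
def St_Two : Prop := ∀ (R : Type) [CommRing R] [IsDomain R] (a b : R), a ≠ 0 →
  (∀ v : R, a ∣ v * b → a ^ 2 ∣ v * b ^ 2 → ∃ (n : ℕ) (x y : Fin n → R),
    (∀ i, a ∣ x i * b) ∧ (∀ i, a ∣ y i * b) ∧ v = ∑ i, x i * y i) →
  HWC.TF R (TensorProduct R (Ideal.span {a, b} : Ideal R)
    (Module.Dual R (Ideal.span {a, b} : Ideal R)))

/-- MONO. The datum, for every field `K`.

Proof. `L = LaurentSeries K` (that is `HahnSeries ℤ K`; a field), algebra structure the standard one.
For `S : Finset (ZMod 40)` (or a `Set` with decidable membership, use `classical`) let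
`pr S : L → L` be the map that keeps the coefficients with index `n`, `(n : ZMod 40) ∈ S` (support is
a subset of a well-founded set), and `L_S = {f | ∀ n : ℤ, f.coeff n ≠ 0 → (n : ZMod 40) ∈ S}`.
`L_S * L_U ⊆ L_(S + U)` (a nonzero coefficient of a product comes from a nonzero product of
coefficients, `HahnSeries.coeff_mul`). `F = L_{0}` (a subfield: closed under inverses, because for
`f ∈ F` the component `pr {0} f⁻¹` is again an inverse of `f`: `f * pr {0} g = pr {0} (f * g)`).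
Let `A = {0, 7, 11, 13, 22, 24, 28, 35, 36, 39}`, `C = A ∪ (A + 10)`, `V = L_C`,
`T f = z ^ (-25) * pr {25} f` (`z = single 1 1`; `z ^ (-25) = single (-25) 1`), `w = single 10 1`.
The facts needed (all by `decide` in `ZMod 40`): `c + d ≠ 25` for `c, d ∈ C`; for `g ∉ C` the element
`25 - g` is in `C`; every element of `ZMod 40` except `25, 15, 5` is `a + a'` with `a, a' ∈ A`;
no `c` has `c, c + 10, c + 20 ∈ C`.
`perp`: if `f ∉ V`, some coefficient of index `n` with residue `g ∉ C` is nonzero; `b =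
single (25 - g)~ 1` (any integer with that residue, in `C`) has `T (f * b) ≠ 0`.
`al j = single j 1`, `be j = single (25 - j) 1`, `j : Fin 40`: `al j * T (be j * f) = pr {j} f`.
`ga` the `single c 1` for `c ∈ C` (twenty elements; or `m = 40` with `ga j = single j 1` if `j ∈ C`,
else `0`). `T_one`: `e = single 25 1`.
(c): `v = pr S v`, `S` the complement of `{25, 15, 5}`; for `g ∈ S` choose `a, a' ∈ A` with
`g = a + a'`; the component `pr {g} v` is `single a 1 * (single (-a) 1 * pr {g} v)` with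
`single (-a) 1 * pr {g} v ∈ L_{a'}`; `n = 40` (zero terms for `g ∉ S`).
(d): `v = single 0 1 * y + single 7 1 * y'` with `y = pr (univ \ {25, 15}) v` and
`y' = single (-7) 1 * pr {25, 15} v ∈ L_{18, 8}`. -/
def St_Mono : Prop := ∀ (K : Type) [Field K], ∃ (L : Type) (_ : Field L) (_ : Algebra K L)
  (D : Dat L) (w : L),
  (∀ a : K, algebraMap K L a ∈ D.F) ∧ w ∉ D.F ∧
  (∀ c ∈ D.V, w * c ∈ D.V → w ^ 2 * c ∈ D.V → c = 0) ∧
  (∀ v, D.T v = 0 → D.T (w * v) = 0 → D.T (w ^ 2 * v) = 0 → ∃ (n : ℕ) (x y : Fin n → L),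
    (∀ i, x i ∈ D.V ∧ w * x i ∈ D.V) ∧ (∀ i, y i ∈ D.V ∧ w * y i ∈ D.V) ∧ v = ∑ i, x i * y i) ∧
  (∀ v, ∃ (n : ℕ) (x y : Fin n → L),
    (∀ i, x i ∈ D.V ∧ w * x i ∈ D.V) ∧ (∀ i, D.T (y i) = 0 ∧ D.T (w * y i) = 0) ∧
    v = ∑ i, x i * y i)

end Pool.Agent.HWY
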