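import Mathlib

/-!
helper11. A one-dimensional Gorenstein local domain with a two-generated ideal `I`, not
principal, such that `I ⊗ I*` is reflexive; arbitrary characteristic.

`Dat L`: a field `L`, finite over a subfield `F`, with an `F`-linear functional `Tr : L → F` and an
`F`-subspace `V` of `L` which is its own orthogonal complement for `(a, b) ↦ Tr (a * b)`.
The ring: power series `f` over `L` with `f_0` in `F`, `f_1` in `V`, `Tr f_2 = 0`.
-/

set_option autoImplicit false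

namespace Pool.Agent.HWY

open PowerSeries

/-- the linear algebra data -/
structure Dat (L : Type) [Field L] where
  F : Subfield L
  V : AddSubgroup L
  T : L → L
  T_add : ∀ a b, T (a + b) = T a + T b
  T_mem : ∀ a, T a ∈ F
  T_mul : ∀ a ∈ F, ∀ b, T (a * b) = a * T b
  V_mul : ∀ a ∈ F, ∀ b ∈ V, a * b ∈ V
  VV : ∀ a ∈ V, ∀ b ∈ V, T (a * b) = 0
  perp : ∀ a, (∀ b ∈ V, T (a * b) = 0) → a ∈ V
  T_one : ∃ e, T e = 1
  n : ℕ
  al : Fin n → L
  be : Fin n → L
  dual : ∀ a, a = ∑ j, al j * T (be j * a)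
  m : ℕ
  ga : Fin m → L
  ga_mem : ∀ j, ga j ∈ V
  ga_span : ∀ a ∈ V, ∃ u : Fin m → L, (∀ j, u j ∈ F) ∧ a = ∑ j, u j * ga j

variable {L : Type} [Field L]

namespace Dat

variable (D : Dat L)

theorem T_zero : D.T 0 = 0 := by
  have := D.T_add 0 0
  rw [add_zero] at this
  exact left_eq_add.1 this

theorem T_neg (a : L) : D.T (-a) = - D.T a := by
  have := D.T_mul (-1) (D.F.neg_mem D.F.one_mem) a
  rwa [neg_one_mul, neg_one_mul] at this

theorem T_sum {ι : Type} (s : Finset ι) (f : ι → L) : D.T (∑ i ∈ s, f i) = ∑ i ∈ s, D.T (f i) := by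
  classical
  induction s using Finset.induction_on with
  | empty => simp [D.T_zero]
  | insert a s ha ih => rw [Finset.sum_insert ha, Finset.sum_insert ha, D.T_add, ih]

theorem perp_top (z : L) (h : ∀ y, D.T (z * y) = 0) : z = 0 := by
  rw [D.dual z]
  refine Finset.sum_eq_zero fun j _ => ?_
  rw [mul_comm (D.be j), h, mul_zero]

theorem perp_ker (a : L) (h : ∀ b, D.T b = 0 → D.T (a * b) = 0) : a ∈ D.F := by
  obtain ⟨e, he⟩ := D.T_one
  have h1 : ∀ y, D.T ((a - D.T (a * e)) * y) = 0 := by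
    intro y
    have h2 : D.T (y - D.T y * e) = 0 := by
      rw [sub_eq_add_neg, D.T_add, D.T_neg, D.T_mul _ (D.T_mem y), he, mul_one, add_neg_cancel]
    have h3 := h _ h2
    have e1 : a * (y - D.T y * e) = a * y + -(D.T y * (a * e)) := by ring
    rw [e1, D.T_add, D.T_neg, D.T_mul _ (D.T_mem y)] at h3
    have e2 : (a - D.T (a * e)) * y = a * y + -(D.T (a * e) * y) := by ring
    rw [e2, D.T_add, D.T_neg, D.T_mul _ (D.T_mem _)]
    linear_combination h3
  have h4 := D.perp_top _ h1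
  rw [sub_eq_zero] at h4
  rw [h4]
  exact D.T_mem _

/-- the ring -/
def R : Subring (PowerSeries L) where
  carrier := {f | coeff 0 f ∈ D.F ∧ coeff 1 f ∈ D.V ∧ D.T (coeff 2 f) = 0}
  zero_mem' := by simp [D.T_zero, D.F.zero_mem, D.V.zero_mem]
  one_mem' := by
    refine ⟨?_, ?_, ?_⟩
    · simp
    · simp [coeff_one, D.V.zero_mem]
    · simp [coeff_one, D.T_zero]
  add_mem' := by
    rintro f g ⟨hf0, hf1, hf2⟩ ⟨hg0, hg1, hg2⟩
    refine ⟨?_, ?_, ?_⟩
    · rw [map_add]; exact D.F.add_mem hf0 hg0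
    · rw [map_add]; exact D.V.add_mem hf1 hg1
    · rw [map_add, D.T_add, hf2, hg2, add_zero]
  neg_mem' := by
    rintro f ⟨hf0, hf1, hf2⟩
    refine ⟨?_, ?_, ?_⟩
    · rw [map_neg]; exact D.F.neg_mem hf0
    · rw [map_neg]; exact D.V.neg_mem hf1
    · rw [map_neg, D.T_neg, hf2, neg_zero]
  mul_mem' := by
    rintro f g ⟨hf0, hf1, hf2⟩ ⟨hg0, hg1, hg2⟩
    have e0 : coeff 0 (f * g) = coeff 0 f * coeff 0 g := by
      simp [coeff_mul]
    have e1 : coeff 1 (f * g) = coeff 0 f * coeff 1 g + coeff 0 g * coeff 1 f := by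
      rw [coeff_mul, Finset.Nat.sum_antidiagonal_succ]
      simp; ring
    have e2 : coeff 2 (f * g) =
        coeff 0 f * coeff 2 g + coeff 1 f * coeff 1 g + coeff 0 g * coeff 2 f := by
      rw [coeff_mul, Finset.Nat.sum_antidiagonal_succ, Finset.Nat.sum_antidiagonal_succ]
      simp; ring
    refine ⟨?_, ?_, ?_⟩
    · rw [e0]; exact D.F.mul_mem hf0 hg0
    · rw [e1]; exact D.V.add_mem (D.V_mul _ hf0 _ hg1) (D.V_mul _ hg0 _ hf1)
    · rw [e2, D.T_add, D.T_add, D.T_mul _ hf0, D.T_mul _ hg0, hf2, hg2, D.VV _ hf1 _ hg1,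
        mul_zero, mul_zero, add_zero, add_zero]

theorem mem_R (f : PowerSeries L) :
    f ∈ D.R ↔ coeff 0 f ∈ D.F ∧ coeff 1 f ∈ D.V ∧ D.T (coeff 2 f) = 0 := Iff.rfl

theorem mem3 (f : PowerSeries L) (h : ∀ m < 3, coeff m f = 0) : f ∈ D.R := by
  rw [D.mem_R, h 0 (by norm_num), h 1 (by norm_num), h 2 (by norm_num)]
  exact ⟨D.F.zero_mem, D.V.zero_mem, D.T_zero⟩

theorem mem3' (f : PowerSeries L) : X ^ 3 * f ∈ D.R :=
  D.mem3 _ fun m hm => by rw [coeff_X_pow_mul', if_neg (by omega)]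

/-- the parameter -/
noncomputable def x3 : D.R := ⟨X ^ 3, by simpa using D.mem3' 1⟩

end Dat

end Pool.Agent.HWY
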