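import Pool.Agent.HWY.St

/-! helper11. The monomial datum over Laurent series. -/

set_option autoImplicit false

namespace Pool.Agent.HWY

noncomputable section

namespace Mono

variable {K : Type} [Field K]

/-- the residue of an exponent -/
abbrev Z : Type := ZMod 40

/-- the exponents of the nonzero coefficients have residues in `S` -/
def InS (S : Finset Z) (f : LaurentSeries K) : Prop := ∀ n : ℤ, f.coeff n ≠ 0 → (n : Z) ∈ S

/-- keep the coefficients with residue in `S` -/
def pr (S : Finset Z) (f : LaurentSeries K) : LaurentSeries K where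
  coeff n := if (n : Z) ∈ S then f.coeff n else 0
  isPWO_support' := f.isPWO_support.mono (fun n hn => by
    simp only [Function.mem_support] at hn ⊢
    intro h
    apply hn
    split_ifs
    · exact h
    · rfl)

theorem coeff_pr (S : Finset Z) (f : LaurentSeries K) (n : ℤ) :
    (pr S f).coeff n = if (n : Z) ∈ S then f.coeff n else 0 := rfl

theorem inS_pr (S : Finset Z) (f : LaurentSeries K) : InS S (pr S f) := by
  intro n hn
  rw [coeff_pr] at hn
  by_contra h
  rw [if_neg h] at hn
  exact hn rfl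

theorem pr_of_inS {S : Finset Z} {f : LaurentSeries K} (h : InS S f) : pr S f = f := by
  ext n
  rw [coeff_pr]
  split_ifs with h1
  · rfl
  · by_contra h2
    exact h1 (h n (Ne.symm h2))

theorem pr_zero_of {S U : Finset Z} {f : LaurentSeries K} (h : InS S f)
    (hd : ∀ u ∈ U, u ∉ S) : pr U f = 0 := by
  ext n
  rw [coeff_pr]
  split_ifs with h1
  · by_contra h2
    exact hd _ h1 (h n h2)
  · rfl

theorem inS_zero (S : Finset Z) : InS S (0 : LaurentSeries K) := fun n hn => absurd rfl hn

theorem inS_add {S : Finset Z} {f g : LaurentSeries K} (hf : InS S f) (hg : InS S g) :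
    InS S (f + g) := by
  intro n hn
  by_contra h
  apply hn
  rw [HahnSeries.coeff_add]
  have h1 : f.coeff n = 0 := by by_contra h2; exact h (hf n h2)
  have h3 : g.coeff n = 0 := by by_contra h2; exact h (hg n h2)
  rw [h1, h3, add_zero]

theorem inS_neg {S : Finset Z} {f : LaurentSeries K} (hf : InS S f) : InS S (-f) := by
  intro n hn
  apply hf
  intro h
  apply hn
  rw [HahnSeries.coeff_neg, h, neg_zero]

theorem inS_mono {S U : Finset Z} {f : LaurentSeries K} (hf : InS S f) (h : ∀ s ∈ S, s ∈ U) :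
    InS U f := fun n hn => h _ (hf n hn)

theorem inS_mul {S U W : Finset Z} {f g : LaurentSeries K} (hf : InS S f) (hg : InS U g)
    (h : ∀ s ∈ S, ∀ u ∈ U, s + u ∈ W) : InS W (f * g) := by
  intro n hn
  rw [HahnSeries.coeff_mul] at hn
  obtain ⟨ij, hij, hne⟩ := Finset.exists_ne_zero_of_sum_ne_zero hn
  rw [Finset.mem_antidiagonal] at hij
  obtain ⟨h1, h2, h3⟩ := hij
  rw [← h3, Int.cast_add]
  exact h _ (hf _ (by simpa using h1)) _ (hg _ (by simpa using h2))

theorem pr_add (S : Finset Z) (f g : LaurentSeries K) : pr S (f + g) = pr S f + pr S g := by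
  ext n
  simp only [coeff_pr, HahnSeries.coeff_add]
  split_ifs
  · rfl
  · rw [add_zero]

theorem split (S : Finset Z) (f : LaurentSeries K) : f = pr S f + pr Sᶜ f := by
  ext n
  simp only [coeff_pr, HahnSeries.coeff_add, Finset.mem_compl]
  by_cases h : (n : Z) ∈ S
  · simp [h]
  · simp [h]

theorem pr_mul {f : LaurentSeries K} (hf : InS {0} f) (S : Finset Z) (g : LaurentSeries K) :
    pr S (f * g) = f * pr S g := by
  conv_lhs => rw [split S g, mul_add, pr_add]
  have h1 : InS S (f * pr S g) := inS_mul hf (inS_pr S g) (by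
    intro s hs u hu
    rw [Finset.mem_singleton.1 hs, zero_add]
    exact hu)
  have h2 : InS Sᶜ (f * pr Sᶜ g) := inS_mul hf (inS_pr Sᶜ g) (by
    intro s hs u hu
    rw [Finset.mem_singleton.1 hs, zero_add]
    exact hu)
  rw [pr_of_inS h1, pr_zero_of h2 (by intro u hu h; exact (Finset.mem_compl.1 h) hu), add_zero]

/-- the monomial -/
def mo (m : ℤ) : LaurentSeries K := HahnSeries.single m 1

theorem mo_mul_mo (m n : ℤ) : (mo m * mo n : LaurentSeries K) = mo (m + n) := by
  rw [mo, mo, mo, HahnSeries.single_mul_single, one_mul]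

theorem mo_zero : (mo 0 : LaurentSeries K) = 1 := rfl

theorem coeff_mo_mul (m n : ℤ) (f : LaurentSeries K) : (mo m * f).coeff n = f.coeff (n - m) := by
  have := HahnSeries.coeff_single_mul_add (r := (1 : K)) (x := f) (a := n - m) (b := m)
  rw [sub_add_cancel, one_mul] at this
  exact this

theorem inS_mo (m : ℤ) (S : Finset Z) (h : (m : Z) ∈ S) : InS S (mo m : LaurentSeries K) := by
  intro n hn
  rw [mo, HahnSeries.coeff_single] at hn
  by_cases h1 : n = m
  · rw [h1]; exact h
  · rw [if_neg h1] at hn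
    exact absurd rfl hn

theorem mo_ne (m : ℤ) : (mo m : LaurentSeries K) ≠ 0 := by
  rw [mo]
  exact HahnSeries.single_ne_zero one_ne_zero

theorem pr_mo_mul (S U : Finset Z) (m : ℤ) (h : ∀ z : Z, z ∈ S ↔ z - (m : Z) ∈ U)
    (f : LaurentSeries K) : pr S (mo m * f) = mo m * pr U f := by
  ext n
  rw [coeff_pr, coeff_mo_mul, coeff_mo_mul, coeff_pr]
  have h1 := h (n : Z)
  rw [← Int.cast_sub] at h1
  by_cases h2 : (n : Z) ∈ S
  · rw [if_pos h2, if_pos (h1.1 h2)]
  · rw [if_neg h2, if_neg (fun h3 => h2 (h1.2 h3))]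

/-- the functional -/
def T (f : LaurentSeries K) : LaurentSeries K := mo (-25) * pr {25} f

theorem T_mo_mul (m : ℤ) (f : LaurentSeries K) :
    T (mo m * f) = mo (m - 25) * pr {(25 : Z) - (m : Z)} f := by
  rw [T, pr_mo_mul {25} {(25 : Z) - (m : Z)} m, ← mul_assoc, mo_mul_mo]
  · congr 2
    ring
  · intro z
    rw [Finset.mem_singleton, Finset.mem_singleton]
    exact sub_left_inj.symm

theorem T_eq_zero {f : LaurentSeries K} (h : T f = 0) : pr {25} f = 0 :=
  (mul_eq_zero.1 h).resolve_left (mo_ne _)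

theorem T_mo_eq_zero {m : ℤ} {f : LaurentSeries K} (h : T (mo m * f) = 0) :
    pr {(25 : Z) - (m : Z)} f = 0 := by
  rw [T_mo_mul] at h
  exact (mul_eq_zero.1 h).resolve_left (mo_ne _)

theorem coeff_of_pr_zero {g : Z} {f : LaurentSeries K} (h : pr {g} f = 0) (n : ℤ)
    (hn : (n : Z) = g) : f.coeff n = 0 := by
  have := congrArg (fun x => HahnSeries.coeff x n) h
  simp only [coeff_pr, Finset.mem_singleton, hn, if_true] at this
  exact this

theorem sum_coeff {ι : Type} (s : Finset ι) (f : ι → LaurentSeries K) (n : ℤ) :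
    (∑ i ∈ s, f i).coeff n = ∑ i ∈ s, (f i).coeff n := by
  classical
  induction s using Finset.induction_on with
  | empty => simp
  | insert a s ha ih => rw [Finset.sum_insert ha, Finset.sum_insert ha, HahnSeries.coeff_add, ih]

theorem sum_pr (f : LaurentSeries K) : ∑ j : Fin 40, pr {((j : ℕ) : Z)} f = f := by
  ext n
  rw [sum_coeff]
  have hlt : (n : Z).val < 40 := ZMod.val_lt _
  rw [Finset.sum_eq_single (⟨(n : Z).val, hlt⟩ : Fin 40)]
  · rw [coeff_pr, if_pos]
    rw [Finset.mem_singleton, ZMod.natCast_zmod_val]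
  · intro j _ hj
    rw [coeff_pr, if_neg]
    rw [Finset.mem_singleton]
    intro h
    apply hj
    ext
    show (j : ℕ) = (n : Z).val
    rw [h, ZMod.val_natCast, Nat.mod_eq_of_lt j.2]
  · intro h
    exact absurd (Finset.mem_univ _) h

/-- the set `A` -/
def setA : Finset Z := {0, 7, 11, 13, 22, 24, 28, 35, 36, 39}

/-- the set `C` -/
def setC : Finset Z := {0, 5, 6, 7, 9, 10, 11, 13, 17, 21, 22, 23, 24, 28, 32, 34, 35, 36, 38, 39}

theorem fact1 : ∀ c ∈ setC, ∀ d ∈ setC, c + d ≠ (25 : Z) := by decide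

theorem fact2 : ∀ g : Z, g ∉ setC → 25 - g ∈ setC := by decide

theorem fact3 : ∀ a ∈ setA, a ∈ setC ∧ a + 10 ∈ setC := by decide

theorem fact4 : ∀ c : Z, c ∈ setC → c + 10 ∈ setC → c + 10 + 10 ∉ setC := by decide

theorem fact5 : ∀ g : Z, g ≠ 25 → g ≠ 15 → g ≠ 5 → ∃ a ∈ setA, g - a ∈ setA := by decide

/-- the base field -/
def FF (K : Type) [Field K] : Subfield (LaurentSeries K) where
  carrier := {f | InS {0} f}
  mul_mem' := fun {f g} hf hg => inS_mul hf hg (by
    intro s hs u hu
    rw [Finset.mem_singleton.1 hs, Finset.mem_singleton.1 hu, add_zero]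
    exact Finset.mem_singleton_self _)
  one_mem' := by
    rw [Set.mem_ofPred_eq, ← mo_zero]
    exact inS_mo 0 _ (by simp)
  add_mem' := fun {f g} hf hg => inS_add hf hg
  zero_mem' := inS_zero _
  neg_mem' := fun {f} hf => inS_neg hf
  inv_mem' := by
    intro f hf
    rw [Set.mem_ofPred_eq] at hf ⊢
    by_cases h0 : f = 0
    · rw [h0, inv_zero]; exact inS_zero _
    · have h1 : f * pr {0} f⁻¹ = f * f⁻¹ := by
        rw [← pr_mul hf, mul_inv_cancel₀ h0, ← mo_zero]
        exact pr_of_inS (inS_mo 0 _ (by simp))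
      rw [← mul_left_cancel₀ h0 h1]
      exact inS_pr _ _

theorem mem_FF (f : LaurentSeries K) : f ∈ FF K ↔ InS {0} f := Iff.rfl

/-- the subspace -/
def VV (K : Type) [Field K] : AddSubgroup (LaurentSeries K) where
  carrier := {f | InS setC f}
  add_mem' := fun {f g} hf hg => inS_add hf hg
  zero_mem' := inS_zero _
  neg_mem' := fun {f} hf => inS_neg hf

theorem mem_VV (f : LaurentSeries K) : f ∈ VV K ↔ InS setC f := Iff.rfl

theorem T_add (a b : LaurentSeries K) : T (a + b) = T a + T b := by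
  rw [T, T, T, pr_add, mul_add]

theorem T_mem (a : LaurentSeries K) : T a ∈ FF K := by
  rw [mem_FF, T]
  refine inS_mul (inS_mo (-25) {-25} (by simp)) (inS_pr {25} a) ?_
  intro s hs u hu
  rw [Finset.mem_singleton.1 hs, Finset.mem_singleton.1 hu]
  simp

theorem T_mul (a : LaurentSeries K) (ha : a ∈ FF K) (b : LaurentSeries K) :
    T (a * b) = a * T b := by
  rw [T, T, pr_mul ha]
  ring

theorem al_be (j : ℕ) (a : LaurentSeries K) :
    mo (j : ℤ) * T (mo (25 - (j : ℤ)) * a) = pr {(j : Z)} a := by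
  rw [T_mo_mul, ← mul_assoc, mo_mul_mo]
  have e1 : (j : ℤ) + (25 - (j : ℤ) - 25) = 0 := by ring
  have e2 : (25 : Z) - ((25 - (j : ℤ) : ℤ) : Z) = (j : Z) := by push_cast; ring
  rw [e1, e2, mo_zero, one_mul]

/-- the datum -/
def D (K : Type) [Field K] : Dat (LaurentSeries K) where
  F := FF K
  V := VV K
  T := T
  T_add := T_add
  T_mem := T_mem
  T_mul := T_mul
  V_mul := fun a ha b hb => inS_mul ha hb (by
    intro s hs u hu
    rw [Finset.mem_singleton.1 hs, zero_add]
    exact hu)
  VV := fun a ha b hb => by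
    have h1 : InS ({25}ᶜ) (a * b) := inS_mul ha hb (by
      intro s hs u hu
      rw [Finset.mem_compl, Finset.mem_singleton]
      exact fact1 s hs u hu)
    rw [T, pr_zero_of h1 (by intro u hu h; exact (Finset.mem_compl.1 h) hu), mul_zero]
  perp := fun a h => by
    rw [mem_VV]
    intro n hn
    by_contra hC
    have h1 := h (mo (25 - n)) (inS_mo _ _ (by push_cast; exact fact2 _ hC))
    rw [mul_comm] at h1
    have h2 := coeff_of_pr_zero (T_mo_eq_zero h1) n (by push_cast; ring)
    exact hn h2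
  T_one := ⟨mo 25, by
    rw [T, pr_of_inS (inS_mo 25 _ (by simp)), mo_mul_mo, neg_add_cancel, mo_zero]⟩
  n := 40
  al := fun j => mo ((j : ℕ) : ℤ)
  be := fun j => mo (25 - ((j : ℕ) : ℤ))
  dual := fun a => by
    conv_lhs => rw [← sum_pr a]
    exact Finset.sum_congr rfl fun j _ => (al_be (j : ℕ) a).symm
  m := 40
  ga := fun j => if ((j : ℕ) : Z) ∈ setC then mo ((j : ℕ) : ℤ) else 0
  ga_mem := fun j => by
    split_ifs with h
    · exact inS_mo _ _ (by push_cast; exact h)
    · exact inS_zero _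
  ga_span := fun a ha => by
    refine ⟨fun j => T (mo (25 - ((j : ℕ) : ℤ)) * a), fun j => T_mem _, ?_⟩
    conv_lhs => rw [← sum_pr a]
    refine Finset.sum_congr rfl fun j _ => ?_
    split_ifs with h
    · rw [mul_comm, al_be]
    · rw [mul_zero]
      refine pr_zero_of ha fun u hu => ?_
      rw [Finset.mem_singleton.1 hu]
      exact h

theorem sum_good (v : LaurentSeries K) (h25 : pr {25} v = 0) (h15 : pr {15} v = 0)
    (h5 : pr {5} v = 0) : ∃ (n : ℕ) (x y : Fin n → LaurentSeries K),
    (∀ i, x i ∈ VV K ∧ mo 10 * x i ∈ VV K) ∧ (∀ i, y i ∈ VV K ∧ mo 10 * y i ∈ VV K) ∧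
    v = ∑ i, x i * y i := by
  have hA : ∀ a : Z, a ∈ setA → ∀ f : LaurentSeries K, InS {a} f → f ∈ VV K ∧ mo 10 * f ∈ VV K := by
    intro a ha f hf
    obtain ⟨h1, h2⟩ := fact3 a ha
    refine ⟨inS_mono hf fun s hs => ?_, inS_mul (inS_mo 10 {10} (by simp)) hf fun s hs u hu => ?_⟩
    · rw [Finset.mem_singleton.1 hs]; exact h1
    · rw [Finset.mem_singleton.1 hs, Finset.mem_singleton.1 hu, add_comm]; exact h2
  have hch : ∀ j : Fin 40, ∃ x y : LaurentSeries K, (x ∈ VV K ∧ mo 10 * x ∈ VV K) ∧
      (y ∈ VV K ∧ mo 10 * y ∈ VV K) ∧ pr {((j : ℕ) : Z)} v = x * y := by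
    intro j
    have hz : (0 : LaurentSeries K) ∈ VV K ∧ mo 10 * (0 : LaurentSeries K) ∈ VV K := by
      rw [mul_zero]
      exact ⟨inS_zero _, inS_zero _⟩
    by_cases g25 : ((j : ℕ) : Z) = 25
    · exact ⟨0, 0, hz, hz, by rw [g25, h25, mul_zero]⟩
    by_cases g15 : ((j : ℕ) : Z) = 15
    · exact ⟨0, 0, hz, hz, by rw [g15, h15, mul_zero]⟩
    by_cases g5 : ((j : ℕ) : Z) = 5
    · exact ⟨0, 0, hz, hz, by rw [g5, h5, mul_zero]⟩
    obtain ⟨a, ha, ha'⟩ := fact5 _ g25 g15 g5
    have hav : ((a.val : ℤ) : Z) = a := by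
      rw [Int.cast_natCast, ZMod.natCast_zmod_val]
    refine ⟨mo (a.val : ℤ), mo (-(a.val : ℤ)) * pr {((j : ℕ) : Z)} v, hA a ha _ ?_,
      hA _ ha' _ ?_, ?_⟩
    · exact inS_mo _ _ (by rw [hav]; exact Finset.mem_singleton_self _)
    · refine inS_mul (inS_mo (-(a.val : ℤ)) {-a} ?_) (inS_pr _ _) ?_
      · rw [Int.cast_neg, hav]; exact Finset.mem_singleton_self _
      · intro s hs u hu
        rw [Finset.mem_singleton.1 hs, Finset.mem_singleton.1 hu, Finset.mem_singleton]
        ring
    · rw [← mul_assoc, mo_mul_mo, add_neg_cancel, mo_zero, one_mul]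
  choose x y hx hy hxy using hch
  refine ⟨40, x, y, hx, hy, ?_⟩
  conv_lhs => rw [← sum_pr v]
  exact Finset.sum_congr rfl fun j _ => hxy j

end Mono

open Mono in
theorem thm_Mono : St_Mono := by
  intro K _
  refine ⟨LaurentSeries K, inferInstance, inferInstance, Mono.D K, mo 10, ?_, ?_, ?_, ?_, ?_⟩
  · intro a
    show InS {0} (algebraMap K (LaurentSeries K) a)
    intro n hn
    have e : algebraMap K (LaurentSeries K) a = HahnSeries.single 0 a := by
      simp [LaurentSeries.algebraMap_apply]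
    rw [e, HahnSeries.coeff_single] at hn
    by_cases h1 : n = 0
    · rw [h1]; simp
    · rw [if_neg h1] at hn
      exact absurd rfl hn
  · intro h
    have h1 : InS {0} (mo 10 : LaurentSeries K) := h
    have h2 := h1 10 (by rw [mo, HahnSeries.coeff_single, if_pos rfl]; exact one_ne_zero)
    rw [Finset.mem_singleton] at h2
    revert h2
    decide
  · intro c hc h1 h2
    have hc' : InS setC c := hc
    have h1' : InS setC (mo 10 * c) := h1
    have h2' : InS setC (mo 10 ^ 2 * c) := h2
    ext n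
    by_contra hn
    have hn' : c.coeff n ≠ 0 := hn
    have e1 := h1' (n + 10) (by rw [coeff_mo_mul, add_sub_cancel_right]; exact hn')
    have e2 := h2' (n + 20) (by
      have : (mo 10 ^ 2 * c : LaurentSeries K) = mo 20 * c := by
        rw [pow_two, mo_mul_mo]; norm_num
      rw [this, coeff_mo_mul, add_sub_cancel_right]
      exact hn')
    have e0 := hc' n hn'
    refine fact4 (n : Z) e0 (by simpa using e1) ?_
    have : ((n + 20 : ℤ) : Z) = (n : Z) + 10 + 10 := by push_cast; ring
    rw [← this]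
    exact e2
  · intro v h0 h1 h2
    have g25 : pr {25} v = 0 := T_eq_zero h0
    have g15 : pr {15} v = 0 := by
      have := T_mo_eq_zero (m := 10) (f := v) h1
      have e : (25 : Z) - ((10 : ℤ) : Z) = 15 := by decide
      rwa [e] at this
    have g5 : pr {5} v = 0 := by
      have e0 : (mo 10 ^ 2 * v : LaurentSeries K) = mo 20 * v := by
        rw [pow_two, mo_mul_mo]; norm_num
      have h2' : T (mo 10 ^ 2 * v) = 0 := h2
      rw [e0] at h2'
      have := T_mo_eq_zero (m := 20) (f := v) h2'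
      have e : (25 : Z) - ((20 : ℤ) : Z) = 5 := by decide
      rwa [e] at this
    exact sum_good v g25 g15 g5
  · intro v
    refine ⟨2, ![1, mo 7], ![pr ({25, 15} : Finset Z)ᶜ v, mo (-7) * pr ({25, 15} : Finset Z) v],
      ?_, ?_, ?_⟩
    · intro i
      fin_cases i
      · show InS setC (1 : LaurentSeries K) ∧ InS setC (mo 10 * 1 : LaurentSeries K)
        rw [mul_one, ← mo_zero]
        exact ⟨inS_mo 0 _ (by decide), inS_mo 10 _ (by decide)⟩
      · show InS setC (mo 7 : LaurentSeries K) ∧ InS setC (mo 10 * mo 7 : LaurentSeries K)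
        rw [mo_mul_mo]
        exact ⟨inS_mo 7 _ (by decide), inS_mo _ _ (by decide)⟩
    · intro i
      have key : ∀ (S : Finset Z) (y : LaurentSeries K), InS S y → (25 : Z) ∉ S → (15 : Z) ∉ S →
          T y = 0 ∧ T (mo 10 * y) = 0 := by
        intro S y hy n25 n15
        constructor
        · rw [T, pr_zero_of hy (by
            intro u hu
            rw [Finset.mem_singleton.1 hu]; exact n25), mul_zero]
        · have e : (25 : Z) - ((10 : ℤ) : Z) = 15 := by decide
          rw [T_mo_mul, e, pr_zero_of hy (by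
            intro u hu
            rw [Finset.mem_singleton.1 hu]; exact n15), mul_zero]
      fin_cases i
      · exact key _ _ (inS_pr _ v) (by decide) (by decide)
      · refine key {18, 8} _ (inS_mul (inS_mo (-7) {-7} (by simp)) (inS_pr _ v) ?_)
          (by decide) (by decide)
        decide
    · rw [Fin.sum_univ_two]
      show v = 1 * pr ({25, 15} : Finset Z)ᶜ v + mo 7 * (mo (-7) * pr ({25, 15} : Finset Z) v)
      rw [← mul_assoc, mo_mul_mo, add_neg_cancel, mo_zero, one_mul, one_mul, add_comm]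
      exact split _ v

end

end Pool.Agent.HWY
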