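import Pool.Agent.HWY.Main
import Pool.Agent.HWY.Unit
import Pool.Agent.HWY.Divide
import Pool.Agent.HWY.Noether
import Pool.Agent.HWY.Gor
import Pool.Agent.HWY.Pack
import Pool.Agent.HWY.Two
import Pool.Agent.HWY.Mono

/-! helper11. Two-generated ideals failing (HWC), over every field. -/

set_option autoImplicit false

namespace Pool.Agent.HWY

theorem ideals (K : Type) [Field K] :
    ∃ (R : Type) (_ : CommRing R) (_ : IsDomain R) (_ : IsLocalRing R) (_ : IsNoetherianRing R)
      (_ : Algebra K R), HWC.GorOne R ∧ ∃ a b : R,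
      Module.IsReflexive R (TensorProduct R (Ideal.span {a, b} : Ideal R)
        (Module.Dual R (Ideal.span {a, b} : Ideal R))) ∧
      ¬ Module.Free R (Ideal.span {a, b} : Ideal R) :=
  main thm_Unit thm_Divide thm_Noether thm_Gor thm_Pack thm_Two thm_Mono K

end Pool.Agent.HWY
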