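import Pool.Agent.HWY.St
import Pool.Agent.HWC.Reflex

/-! helper11. The ideal. -/

set_option autoImplicit false

namespace Pool.Agent.HWY

open PowerSeries

variable {L : Type} [Field L] (D : Dat L)

namespace Dat

/-- `w X ^ 3` -/
noncomputable def bb (w : L) : D.R := ⟨X ^ 3 * C w, D.mem3' _⟩

theorem coe_x3 : ((D.x3 : D.R) : PowerSeries L) = X ^ 3 := rfl

theorem coe_bb (w : L) : ((D.bb w : D.R) : PowerSeries L) = X ^ 3 * C w := rfl

theorem x3_ne : D.x3 ≠ 0 := fun h => pow_ne_zero 3 X_ne_zero (congrArg Subtype.val h)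

theorem dvd_iff (w : L) (v : D.R) : D.x3 ∣ v * D.bb w ↔ C w * (v : PowerSeries L) ∈ D.R := by
  have hX : (X ^ 3 : PowerSeries L) ≠ 0 := pow_ne_zero 3 X_ne_zero
  constructor
  · rintro ⟨q, hq⟩
    have h1 : (v : PowerSeries L) * (X ^ 3 * C w) = X ^ 3 * (q : PowerSeries L) :=
      congrArg Subtype.val hq
    have h2 : C w * (v : PowerSeries L) = (q : PowerSeries L) := by
      apply mul_left_cancel₀ hX
      rw [← h1]; ring
    rw [h2]
    exact q.2
  · intro h
    refine ⟨⟨_, h⟩, Subtype.ext ?_⟩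
    show (v : PowerSeries L) * (X ^ 3 * C w) = X ^ 3 * (C w * (v : PowerSeries L))
    ring

theorem dvd_iff2 (w : L) (v : D.R) :
    D.x3 ^ 2 ∣ v * D.bb w ^ 2 ↔ C (w ^ 2) * (v : PowerSeries L) ∈ D.R := by
  have hX : ((X ^ 3) ^ 2 : PowerSeries L) ≠ 0 := pow_ne_zero 2 (pow_ne_zero 3 X_ne_zero)
  constructor
  · rintro ⟨q, hq⟩
    have h1 : (v : PowerSeries L) * (X ^ 3 * C w) ^ 2 = (X ^ 3) ^ 2 * (q : PowerSeries L) :=
      congrArg Subtype.val hq
    have h2 : C (w ^ 2) * (v : PowerSeries L) = (q : PowerSeries L) := by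
      apply mul_left_cancel₀ hX
      rw [← h1, map_pow]; ring
    rw [h2]
    exact q.2
  · intro h
    refine ⟨⟨_, h⟩, Subtype.ext ?_⟩
    show (v : PowerSeries L) * (X ^ 3 * C w) ^ 2 = (X ^ 3) ^ 2 * (C (w ^ 2) * (v : PowerSeries L))
    rw [map_pow]
    ring

/-- elements which are sums of products of elements of `R : I` -/
def SP (w : L) (v : PowerSeries L) : Prop := ∃ (n : ℕ) (x y : Fin n → D.R),
  (∀ i, C w * (x i : PowerSeries L) ∈ D.R) ∧ (∀ i, C w * (y i : PowerSeries L) ∈ D.R) ∧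
  v = ∑ i, (x i : PowerSeries L) * (y i : PowerSeries L)

theorem SP_zero (w : L) : D.SP w 0 := ⟨0, Fin.elim0, Fin.elim0, fun i => i.elim0,
  fun i => i.elim0, by simp⟩

theorem SP_add {w : L} {u v : PowerSeries L} (hu : D.SP w u) (hv : D.SP w v) :
    D.SP w (u + v) := by
  obtain ⟨n, x, y, hx, hy, rfl⟩ := hu
  obtain ⟨m, x', y', hx', hy', rfl⟩ := hv
  refine ⟨n + m, Fin.append x x', Fin.append y y', fun i => ?_, fun i => ?_, ?_⟩
  · refine Fin.addCases (fun j => ?_) (fun j => ?_) i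
    · rw [Fin.append_left]; exact hx j
    · rw [Fin.append_right]; exact hx' j
  · refine Fin.addCases (fun j => ?_) (fun j => ?_) i
    · rw [Fin.append_left]; exact hy j
    · rw [Fin.append_right]; exact hy' j
  · rw [Fin.sum_univ_add]
    simp only [Fin.append_left, Fin.append_right]

theorem SP_one {w : L} {x y : PowerSeries L} (hx : x ∈ D.R) (hy : y ∈ D.R)
    (hwx : C w * x ∈ D.R) (hwy : C w * y ∈ D.R) : D.SP w (x * y) :=
  ⟨1, fun _ => ⟨x, hx⟩, fun _ => ⟨y, hy⟩, fun _ => hwx, fun _ => hwy, by simp⟩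

theorem SP_sum {w : L} (n : ℕ) (f : Fin n → PowerSeries L) (h : ∀ i, D.SP w (f i)) :
    D.SP w (∑ i, f i) := by
  induction n with
  | zero => simpa using D.SP_zero w
  | succ n ih =>
    rw [Fin.sum_univ_succ]
    exact D.SP_add (h 0) (ih _ fun i => h i.succ)

theorem mem1 {x : L} (hx : x ∈ D.V) : C x * X ∈ D.R := by
  rw [D.mem_R]
  refine ⟨?_, ?_, ?_⟩
  · simp [D.F.zero_mem]
  · simpa using hx
  · have : coeff 2 (C x * X : PowerSeries L) = 0 := by
      rw [show (2 : ℕ) = 1 + 1 from rfl, coeff_succ_mul_X, coeff_C, if_neg (by norm_num)]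
    rw [this, D.T_zero]

theorem mem2 {y : L} (hy : D.T y = 0) : C y * X ^ 2 ∈ D.R := by
  have h : ∀ n, coeff n (C y * X ^ 2 : PowerSeries L) = if n = 2 then y else 0 := by
    intro n
    rw [coeff_C_mul, coeff_X_pow]
    split_ifs <;> simp
  rw [D.mem_R, h, h, h]
  simp [D.F.zero_mem, D.V.zero_mem, hy]

theorem mulC (w x : L) (p : PowerSeries L) : C w * (C x * p) = C (w * x) * p := by
  rw [map_mul, mul_assoc]

/-- the key step -/
theorem key (w : L) (hw : w ∉ D.F)
    (h1 : ∀ c ∈ D.V, w * c ∈ D.V → w ^ 2 * c ∈ D.V → c = 0)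
    (h2 : ∀ v, D.T v = 0 → D.T (w * v) = 0 → D.T (w ^ 2 * v) = 0 →
      ∃ (n : ℕ) (x y : Fin n → L), (∀ i, x i ∈ D.V ∧ w * x i ∈ D.V) ∧
      (∀ i, y i ∈ D.V ∧ w * y i ∈ D.V) ∧ v = ∑ i, x i * y i)
    (h3 : ∀ v, ∃ (n : ℕ) (x y : Fin n → L), (∀ i, x i ∈ D.V ∧ w * x i ∈ D.V) ∧
      (∀ i, D.T (y i) = 0 ∧ D.T (w * y i) = 0) ∧ v = ∑ i, x i * y i)
    (v : PowerSeries L) (hv0 : v ∈ D.R) (hv1 : C w * v ∈ D.R) (hv2 : C (w ^ 2) * v ∈ D.R) :
    D.SP w v := by
  obtain ⟨a0, a1, a2⟩ := hv0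
  obtain ⟨b0, b1, b2⟩ := hv1
  obtain ⟨c0, c1, c2⟩ := hv2
  rw [coeff_C_mul] at b0 b1 b2 c0 c1 c2
  have e0 : coeff 0 v = 0 := by
    by_contra hne
    apply hw
    have := D.F.mul_mem b0 (D.F.inv_mem a0)
    rwa [mul_assoc, mul_inv_cancel₀ hne, mul_one] at this
  have e1 : coeff 1 v = 0 := h1 _ a1 b1 c1
  -- decomposition
  have ev : v = C (coeff 2 v) * X ^ 2 + (C (coeff 3 v) * X ^ 3 +
      X ^ 4 * PowerSeries.mk fun n => coeff (n + 4) v) := by
    ext n
    rw [map_add, map_add, coeff_C_mul, coeff_X_pow, coeff_C_mul, coeff_X_pow, coeff_X_pow_mul']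
    rcases n with _ | _ | _ | _ | n
    · simpa using e0
    · simpa using e1
    · simp
    · simp
    · rw [if_neg (by omega), if_neg (by omega), if_pos (by omega), coeff_mk]
      simp
  -- a nonzero element
  obtain ⟨u, hu0, hu1, hu2⟩ : ∃ u : L, u ≠ 0 ∧ u ∈ D.V ∧ w * u ∈ D.V := by
    obtain ⟨n, x, y, hx, _, hs⟩ := h3 1
    by_contra hcon
    push Not at hcon
    have hz : ∀ i, x i = 0 := by
      intro i
      by_contra hxi
      exact hcon _ hxi (hx i).1 (hx i).2
    rw [Finset.sum_eq_zero (fun i _ => by rw [hz i, zero_mul])] at hs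
    exact one_ne_zero hs
  rw [ev]
  refine D.SP_add ?_ (D.SP_add ?_ ?_)
  · obtain ⟨n, x, y, hx, hy, hs⟩ := h2 _ a2 b2 c2
    have e : C (coeff 2 v) * X ^ 2 = ∑ i, (C (x i) * X) * (C (y i) * X : PowerSeries L) := by
      rw [hs, map_sum, Finset.sum_mul]
      refine Finset.sum_congr rfl fun i _ => ?_
      rw [map_mul]; ring
    rw [e]
    refine D.SP_sum _ _ fun i => D.SP_one (D.mem1 (hx i).1) (D.mem1 (hy i).1) ?_ ?_
    · rw [mulC]; exact D.mem1 (hx i).2
    · rw [mulC]; exact D.mem1 (hy i).2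
  · obtain ⟨n, x, y, hx, hy, hs⟩ := h3 (coeff 3 v)
    have e : C (coeff 3 v) * X ^ 3 = ∑ i, (C (x i) * X) * (C (y i) * X ^ 2 : PowerSeries L) := by
      rw [hs, map_sum, Finset.sum_mul]
      refine Finset.sum_congr rfl fun i _ => ?_
      rw [map_mul]; ring
    rw [e]
    refine D.SP_sum _ _ fun i => D.SP_one (D.mem1 (hx i).1) (D.mem2 (hy i).1) ?_ ?_
    · rw [mulC]; exact D.mem1 (hx i).2
    · rw [mulC]; exact D.mem2 (hy i).2
  · have e : (X ^ 4 * PowerSeries.mk fun n => coeff (n + 4) v) =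
        (C u * X) * (X ^ 3 * (C u⁻¹ * PowerSeries.mk fun n => coeff (n + 4) v)) := by
      have : (C u * C u⁻¹ : PowerSeries L) = 1 := by
        rw [← map_mul, mul_inv_cancel₀ hu0, map_one]
      calc (X ^ 4 * PowerSeries.mk fun n => coeff (n + 4) v)
          = (C u * C u⁻¹) * (X ^ 4 * PowerSeries.mk fun n => coeff (n + 4) v) := by
            rw [this, one_mul]
        _ = _ := by ring
    rw [e]
    refine D.SP_one (D.mem1 hu1) (D.mem3' _) ?_ ?_
    · rw [mulC]; exact D.mem1 hu2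
    · have e2 : ∀ p : PowerSeries L, C w * (X ^ 3 * p) = X ^ 3 * (C w * p) := fun p => by ring
      rw [e2]
      exact D.mem3' _

/-- the ideal is not free -/
theorem not_free (w : L) (hw : w ∉ D.F) :
    ¬ Module.Free D.R (Ideal.span {D.x3, D.bb w} : Ideal D.R) := by
  intro hfree
  set I : Ideal D.R := Ideal.span {D.x3, D.bb w} with hI
  obtain ⟨ι, β⟩ := hfree.exists_basis (R := D.R) (M := I)
  have haI : D.x3 ∈ I := Ideal.subset_span (by simp)
  have hbI : D.bb w ∈ I := Ideal.subset_span (by simp)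
  have hsub : ∀ i j : ι, i = j := by
    intro i j
    by_contra hij
    have h0 : (β j : D.R) • β i = (β i : D.R) • β j := by
      apply Subtype.ext
      show (β j : D.R) * (β i : D.R) = (β i : D.R) * (β j : D.R)
      exact mul_comm _ _
    have h1 := congrArg (fun z => β.repr z i) h0
    simp only [map_smul, Finsupp.smul_apply, Module.Basis.repr_self, smul_eq_mul] at h1
    rw [Finsupp.single_eq_same, Finsupp.single_eq_of_ne hij, mul_one, mul_zero] at h1
    exact β.ne_zero j (Subtype.ext h1)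
  have hne : Nonempty ι := by
    by_contra hemp
    rw [not_nonempty_iff] at hemp
    have h1 : (⟨D.x3, haI⟩ : I) = 0 := by
      apply β.repr.injective
      ext i
      exact isEmptyElim i
    exact D.x3_ne (congrArg Subtype.val h1)
  obtain ⟨i⟩ := hne
  have hall : ∀ y : I, ∃ r : D.R, (y : D.R) = r * (β i : D.R) := by
    intro y
    refine ⟨β.repr y i, ?_⟩
    have h1 : y = β.repr y i • β i := by
      apply β.repr.injective
      ext j
      rw [hsub j i, map_smul, Finsupp.smul_apply, Module.Basis.repr_self, Finsupp.single_eq_same,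
        smul_eq_mul, mul_one]
    exact congrArg Subtype.val h1
  obtain ⟨x, hx⟩ := hall ⟨_, haI⟩
  obtain ⟨y, hy⟩ := hall ⟨_, hbI⟩
  have hx' : D.x3 = x * (β i : D.R) := hx
  have hy' : D.bb w = y * (β i : D.R) := hy
  obtain ⟨r, s, hrs⟩ := Ideal.mem_span_pair.1 (β i).2
  have hX : (X ^ 3 : PowerSeries L) ≠ 0 := pow_ne_zero 3 X_ne_zero
  -- `y = w x`
  have e1 : C w * (x : PowerSeries L) = (y : PowerSeries L) := by
    have h2 : D.x3 * y = D.bb w * x := by rw [hx', hy']; ring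
    have h3 : X ^ 3 * (y : PowerSeries L) = X ^ 3 * C w * (x : PowerSeries L) :=
      congrArg Subtype.val h2
    apply mul_left_cancel₀ hX
    rw [h3]; ring
  -- `x (r + s w) = 1`
  have e2 : (x : PowerSeries L) * ((r : PowerSeries L) + (s : PowerSeries L) * C w) = 1 := by
    have h2 : D.x3 = x * (r * D.x3 + s * D.bb w) := by rw [hrs]; exact hx'
    have h3 : (X ^ 3 : PowerSeries L) = (x : PowerSeries L) *
        ((r : PowerSeries L) * X ^ 3 + (s : PowerSeries L) * (X ^ 3 * C w)) :=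
      congrArg Subtype.val h2
    apply mul_left_cancel₀ hX
    rw [mul_one]
    conv_rhs => rw [h3]
    ring
  have hx0 : coeff 0 (x : PowerSeries L) ≠ 0 := by
    intro h
    have h2 := congrArg (coeff 0) e2
    rw [coeff_mul, Finset.Nat.antidiagonal_zero, Finset.sum_singleton, h, zero_mul, coeff_one,
      if_pos rfl] at h2
    exact zero_ne_one h2
  have hy0 : w * coeff 0 (x : PowerSeries L) ∈ D.F := by
    rw [← coeff_C_mul, e1]
    exact y.2.1
  apply hw
  have := D.F.mul_mem hy0 (D.F.inv_mem x.2.1)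
  rwa [mul_assoc, mul_inv_cancel₀ hx0, mul_one] at this

end Dat

/-- the statement with explicit dependence on the modules -/
theorem main (hU : St_Unit) (hDv : St_Divide) (hN : St_Noether) (hG : St_Gor) (hP : St_Pack)
    (hT : St_Two) (hM : St_Mono) (K : Type) [Field K] :
    ∃ (R : Type) (_ : CommRing R) (_ : IsDomain R) (_ : IsLocalRing R) (_ : IsNoetherianRing R)
      (_ : Algebra K R), HWC.GorOne R ∧ ∃ a b : R,
      Module.IsReflexive R (TensorProduct R (Ideal.span {a, b} : Ideal R)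
        (Module.Dual R (Ideal.span {a, b} : Ideal R))) ∧
      ¬ Module.Free R (Ideal.span {a, b} : Ideal R) := by
  obtain ⟨L, _, _, D, w, hK, hw, h1, h2, h3⟩ := hM K
  obtain ⟨hloc, -, hgor, hpkg⟩ := hP hU hDv D (hG D)
  have hnoeth : IsNoetherianRing D.R := hN hU hDv D
  let φ : K →+* D.R := ((C (R := L)).comp (algebraMap K L)).codRestrict D.R (fun a => by
    show C (algebraMap K L a) ∈ D.R
    rw [D.mem_R, coeff_C, coeff_C, coeff_C, if_pos rfl, if_neg (by norm_num),
      if_neg (by norm_num)]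
    exact ⟨hK a, D.V.zero_mem, D.T_zero⟩)
  refine ⟨D.R, inferInstance, inferInstance, hloc, hnoeth, φ.toAlgebra, hgor, D.x3, D.bb w, ?_,
    D.not_free w hw⟩
  have htf := hT D.R D.x3 (D.bb w) D.x3_ne (by
    intro v hv1 hv2
    rw [D.dvd_iff] at hv1
    rw [D.dvd_iff2] at hv2
    obtain ⟨n, x, y, hx, hy, hs⟩ := D.key w hw h1 h2 h3 v v.2 hv1 hv2
    refine ⟨n, x, y, fun i => (D.dvd_iff w _).2 (hx i), fun i => (D.dvd_iff w _).2 (hy i), ?_⟩
    apply Subtype.ext
    rw [hs]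
    simp only [AddSubmonoidClass.coe_finsetSum, Subring.coe_mul])
  exact HWC.reflexive D.R hpkg _ htf

end Pool.Agent.HWY
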